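import Pool.Agent.Helper79.OB.GoalsC

/-! Project OB, packet DIST: orbits and distances under the coding map. -/

open MeasureTheory
open scoped ENNReal

namespace Pool.Agent.Helper35.OB

open Pool.Agent.Helper73.OB Pool.Agent.Helper58.Orb Pool.Agent.Helper79.OB

/-- A bound for the word length gives a short list. -/
theorem exists_list_of_wordLen_le {G : Type} [Group G] {S : Set G} {g : G} {R : ℕ}
    (h : wordLen S g ≤ R) :
    ∃ l : List G, (∀ a ∈ l, a ∈ S) ∧ l.prod = g ∧ l.length ≤ R := by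
  by_contra hc
  push Not at hc
  have h1 : ((R + 1 : ℕ) : ℕ∞) ≤ wordLen S g := by
    unfold wordLen
    refine le_iInf₂ fun l hl => ?_
    have := hc l hl.1 hl.2
    exact_mod_cast this
  have h2 := h1.trans h
  have h3 : R + 1 ≤ R := by exact_mod_cast h2
  omega

theorem wordLen_le_of_list {G : Type} [Group G] {S : Set G} (l : List G)
    (h1 : ∀ a ∈ l, a ∈ S) : wordLen S l.prod ≤ l.length :=
  iInf₂_le (f := fun (l' : List G) (_ : (∀ a ∈ l', a ∈ S) ∧ l'.prod = l.prod) =>
    (l'.length : ℕ∞)) l ⟨h1, rfl⟩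

section

variable {d : ℕ} (e : Ltr d ≃ Fin (2 * d))

/-- The group element of a word. -/
def gw (w : List (Ltr d)) : Gam (2 * d) := ((w.map fun a => (gdir (e a) : Gam (2 * d))).reverse).prod

theorem gw_nil : gw e [] = 1 := rfl

theorem gw_cons (a : Ltr d) (w : List (Ltr d)) : gw e (a :: w) = gw e w * gdir (e a) := by
  unfold gw
  rw [List.map_cons, List.reverse_cons, List.prod_append, List.prod_singleton]

theorem wordLen_gw (w : List (Ltr d)) : wordLen (gamGens (2 * d)) (gw e w) ≤ w.length := by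
  have h := wordLen_le_of_list (S := gamGens (2 * d))
    ((w.map fun a => (gdir (e a) : Gam (2 * d))).reverse) (by
      intro g hg
      rw [List.mem_reverse, List.mem_map] at hg
      obtain ⟨a, -, rfl⟩ := hg
      exact ⟨e a, rfl⟩)
  rw [List.length_reverse, List.length_map] at h
  exact h

theorem exists_gw (l : List (Gam (2 * d))) (hl : ∀ a ∈ l, a ∈ gamGens (2 * d)) :
    ∃ w : List (Ltr d), w.length = l.length ∧ gw e w = l.prod := by
  induction l using List.reverseRecOn with
  | nil => exact ⟨[], rfl, rfl⟩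
  | append_singleton l a ih =>
    obtain ⟨w, h1, h2⟩ := ih fun b hb => hl b (by simp [hb])
    obtain ⟨j, hj⟩ := hl a (by simp)
    refine ⟨e.symm j :: w, by simp [h1], ?_⟩
    rw [gw_cons, h2, List.prod_append, List.prod_singleton, Equiv.apply_symm_apply, ← hj]
    rfl

theorem exists_word {γ : Gam (2 * d)} {R : ℕ} (h : wordLen (gamGens (2 * d)) γ ≤ R) :
    ∃ w : List (Ltr d), w.length ≤ R ∧ gw e w = γ := by
  obtain ⟨l, h1, h2, h3⟩ := exists_list_of_wordLen_le h
  obtain ⟨w, h4, h5⟩ := exists_gw e l h1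
  exact ⟨w, by omega, by rw [h5, h2]⟩

theorem run_gw {X : Type} {f : Ltr d → X → X} {Φ : X → Bern (Gam (2 * d))}
    (h : ∀ a x, Φ (f a x) = shift (gdir (e a)) (Φ x)) (w : List (Ltr d)) (x : X) :
    Φ (run f w x) = shift (gw e w) (Φ x) := by
  induction w generalizing x with
  | nil => rw [run_nil, gw_nil, shift_one]
  | cons a w ih => rw [run_cons, ih, h, gw_cons, shift_mul]

end

/-- Good points: the whole orbit is recovered. -/
theorem ae_orbit {d : ℕ} {X Y : Type} [MeasurableSpace X] {μ : Measure X} {f : Ltr d → X → X}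
    (hs : Sys (bet d d) μ f) {Φ : X → Y} {Ψ : Y → X} (h : ∀ᵐ x ∂μ, Ψ (Φ x) = x) :
    ∀ᵐ x ∂μ, ∀ v : List (Ltr d), Ψ (Φ (run f v x)) = run f v x := by
  rw [ae_all_iff]
  intro v
  exact (hs.run_mp v).quasiMeasurePreserving.ae h

theorem th_dist : Pool.Agent.Helper79.OB.S_DIST := by
  intro d X _ μ _ f hs e Φ Ψ hΨ heq
  filter_upwards [ae_orbit hs hΨ] with x hx
  have hC : ∀ w, Φ (run f w x) = shift (gw e w) (Φ x) := fun w => run_gw e heq w x
  have hD : ∀ (γ : Gam (2 * d)) (R : ℕ), wordLen (gamGens (2 * d)) γ ≤ R →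
      ∃ w : List (Ltr d), w.length ≤ R ∧ Φ (run f w x) = shift γ (Φ x) := by
    intro γ R hγ
    obtain ⟨w, h1, h2⟩ := exists_word e hγ
    exact ⟨w, h1, by rw [hC, h2]⟩
  refine ⟨fun v w => ?_, fun γ => ?_, fun w => ⟨_, hC w⟩, hD⟩
  · apply le_antisymm
    · unfold dst
      refine le_iInf₂ fun u hu => ?_
      have h1 : shift (gw e u) (Φ (run f v x)) = Φ (run f w x) := by
        rw [← run_gw e heq, hu]
      refine le_trans ?_ (wordLen_gw e u)
      unfold orbDist
      exact iInf₂_le (f := fun (g' : Gam (2 * d)) (_ : shift g' (Φ (run f v x)) =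
        Φ (run f w x)) => wordLen (gamGens (2 * d)) g') (gw e u) h1
    · unfold orbDist
      refine le_iInf₂ fun γ hγ => ?_
      unfold wordLen
      refine le_iInf₂ fun l hl => ?_
      obtain ⟨u, h4, h5⟩ := exists_gw e l hl.1
      have h1 : Φ (run f u (run f v x)) = Φ (run f w x) := by
        rw [run_gw e heq, h5, hl.2, hγ]
      have h2 : run f u (run f v x) = run f w x := by
        have h3 := congrArg Ψ h1
        rw [← run_append, hx, hx, run_append] at h3
        exact h3
      rw [← h4]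
      unfold dst
      exact iInf₂_le (f := fun (u' : List (Ltr d)) (_ : run f u' (run f v x) = run f w x) =>
        (u'.length : ℕ∞)) u h2
  · obtain ⟨w, -, hw⟩ := hD γ ((gamTree (2 * d)).len γ) (by rw [(gamTree (2 * d)).wordLen_eq])
    exact ⟨w, hw⟩

end Pool.Agent.Helper35.OB
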