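import Pool.Agent.Helper35.OB.DIST

/-! Project OB, packet FIN: the final theorem. -/

open MeasureTheory
open scoped ENNReal

namespace Pool.Agent.Helper35.OB

open Pool.Agent.Helper73.OB Pool.Agent.Helper58.Orb Pool.Agent.Helper79.OB

theorem dst_le {S X : Type} (f : S → X → X) (w : List S) (x : X) :
    dst f x (run f w x) ≤ w.length :=
  iInf₂_le (f := fun (u : List S) (_ : run f u x = run f w x) => (u.length : ℕ∞)) w rfl

theorem pre_le {X Y : Type} [MeasurableSpace X] [MeasurableSpace Y] {ν : Measure Y}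
    {μ : Measure X} {Ψ : Y → X} (h : MeasurePreserving Ψ ν μ) (A : Set X) :
    ν (Ψ ⁻¹' A) ≤ μ A := by
  have h1 : ν (Ψ ⁻¹' A) ≤ ν.map Ψ A := Measure.le_map_apply h.measurable.aemeasurable A
  rwa [h.map_eq] at h1

/-- The small marker density. -/
theorem exists_small (d R : ℕ) (hd : 2 ≤ d) (ε : ℝ) (hε : 0 < ε) :
    ∃ e : unitInterval, 0 < e ∧
      (d : ℝ≥0∞) * ((2 * (d : ℝ≥0∞) + 1) ^ (3 * R + 1) * ENNReal.ofReal e) ≤
        ENNReal.ofReal ε := by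
  have hd0 : (0 : ℝ) < d := by
    have : 0 < d := by omega
    exact_mod_cast this
  set K : ℝ := (d : ℝ) * (2 * (d : ℝ) + 1) ^ (3 * R + 1) with hK
  have hK0 : 0 < K := by positivity
  refine ⟨⟨min 1 (ε / K), le_min zero_le_one (by positivity), min_le_left _ _⟩, ?_, ?_⟩
  · rw [← Subtype.coe_lt_coe]
    exact lt_min one_pos (by positivity)
  · have e1 : (d : ℝ≥0∞) = ENNReal.ofReal d := (ENNReal.ofReal_natCast d).symm
    have e2 : (2 * (d : ℝ≥0∞) + 1) = ENNReal.ofReal (2 * (d : ℝ) + 1) := by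
      rw [ENNReal.ofReal_add (by positivity) zero_le_one, ENNReal.ofReal_mul (by norm_num),
        ENNReal.ofReal_natCast]
      simp
    rw [e2, e1, ← ENNReal.ofReal_pow (by positivity), ← ENNReal.ofReal_mul (by positivity),
      ← ENNReal.ofReal_mul (by positivity)]
    apply ENNReal.ofReal_le_ofReal
    show (d : ℝ) * ((2 * (d : ℝ) + 1) ^ (3 * R + 1) * min 1 (ε / K)) ≤ ε
    rw [← mul_assoc, ← hK]
    calc K * min 1 (ε / K) ≤ K * (ε / K) := by
          exact mul_le_mul_of_nonneg_left (min_le_right _ _) hK0.le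
      _ = ε := by field_simp

theorem th_fin (hBASE : Pool.Agent.Helper79.OB.S_BASE) (hCHAIN : Pool.Agent.Helper79.OB.S_CHAIN)
    (hNEAR : Pool.Agent.Helper79.OB.S_NEAR) (hEND : Pool.Agent.Helper79.OB.S_END) :
    Pool.Agent.Helper79.OB.S_FIN := by
  intro d hd R ε hε
  obtain ⟨hG, hD, hR, hw1, hw2⟩ := hBASE d
  obtain ⟨e, he0, he⟩ := exists_small d R hd ε hε
  have hSB : StandardBorelSpace (Bern (FreeGroup (Fin d))) := by
    have : Countable (FreeGroup (Fin d)) :=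
      (FreeGroup.toWord_injective (α := Fin d)).countable
    infer_instance
  obtain ⟨f', l', hG', hSO, hN, hT⟩ := hCHAIN d hd _ (bern (FreeGroup (Fin d))) (f0 d) _ hG e he0
  obtain ⟨e', Φ, Ψ, mpΦ, mpΨ, hΨΦ, hΦΨ, heq⟩ := hEND d _ (bern (FreeGroup (Fin d))) f' l' hG'
  have hDIST := th_dist d _ (bern (FreeGroup (Fin d))) f' hG'.sys e' Φ Ψ hΨΦ heq
  have hORB := ae_orbit hG'.sys hΨΦ
  -- all good properties of a point
  have hgood : ∀ᵐ x ∂(bern (FreeGroup (Fin d))),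
      (∀ y, (∃ w, run (f0 d) w x = y) ↔ ∃ w, run f' w x = y) ∧
      (∀ v : List (Ltr d), Ψ (Φ (run f' v x)) = run f' v x) ∧
      ((∀ v w : List (Ltr d), orbDist (gamGens (2 * d)) (Φ (run f' v x)) (Φ (run f' w x)) =
        dst f' (run f' v x) (run f' w x)) ∧
      (∀ γ : Gam (2 * d), ∃ w, Φ (run f' w x) = shift γ (Φ x)) ∧
      (∀ w, ∃ γ : Gam (2 * d), Φ (run f' w x) = shift γ (Φ x)) ∧
      (∀ (γ : Gam (2 * d)) (R : ℕ), wordLen (gamGens (2 * d)) γ ≤ R →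
        ∃ w : List (Ltr d), w.length ≤ R ∧ Φ (run f' w x) = shift γ (Φ x))) := by
    filter_upwards [hSO, hORB, hDIST] with x h1 h2 h3
    exact ⟨h1, h2, h3⟩
  have hgood' := mpΨ.quasiMeasurePreserving.ae hgood
  -- distances at points with `Near`
  have hnear : ∀ x, Near (f0 d) f' (3 * R) x → ∀ y y', Reach (f0 d) R x y → Reach (f0 d) R x y' →
      orbDist (freeGens d) y y' = dst f' y y' := by
    intro x hx y y' hy hy'
    rw [hD]
    exact (hNEAR (Ltr d) _ (f0 d) f' f' (3 * R) x).2.2.2 (bet d 0) (bet d d)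
      hG.sys.inv hG'.sys.inv R hx y y' hy hy'
  refine ⟨Φ, Ψ, mpΦ, mpΨ, hΨΦ, hΦΨ, ?_, ?_, ?_, ?_, ?_⟩
  · filter_upwards [hgood] with x ⟨h1, h2, h3, h4, h5, h6⟩
    ext z
    constructor
    · rintro ⟨g, rfl⟩
      obtain ⟨w, hw⟩ := hw2 g
      obtain ⟨w', hw'⟩ := (h1 (shift g x)).1 ⟨w, hw x⟩
      obtain ⟨γ, hγ⟩ := h5 w'
      refine ⟨γ, ?_⟩
      simp only
      rw [← hγ, hw']
    · rintro ⟨γ, rfl⟩
      obtain ⟨w, hw⟩ := h4 γ
      obtain ⟨w', hw'⟩ := (h1 (run f' w x)).2 ⟨w, rfl⟩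
      obtain ⟨g, hg⟩ := hw1 w' x
      refine ⟨g, ?_⟩
      simp only
      rw [← hg, hw', hw]
  · filter_upwards [hgood', hΦΨ] with y ⟨h1, h2, h3, h4, h5, h6⟩ hy
    rw [hy] at h4 h5
    ext z
    constructor
    · rintro ⟨γ, rfl⟩
      obtain ⟨w, hw⟩ := h4 γ
      obtain ⟨w', hw'⟩ := (h1 (run f' w (Ψ y))).2 ⟨w, rfl⟩
      obtain ⟨g, hg⟩ := hw1 w' (Ψ y)
      refine ⟨g, ?_⟩
      simp only
      rw [← hw, h2, ← hw', hg]
    · rintro ⟨g, rfl⟩
      obtain ⟨w, hw⟩ := hw2 g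
      obtain ⟨w', hw'⟩ := (h1 (shift g (Ψ y))).1 ⟨w, hw _⟩
      obtain ⟨γ, hγ⟩ := h5 w'
      refine ⟨γ, ?_⟩
      simp only
      rw [← hγ, h2, hw']
  · refine (measure_mono_ae ?_).trans ((hN (3 * R)).trans he)
    filter_upwards [hgood] with x ⟨h1, h2, h3, h4, h5, h6⟩
    rintro ⟨g, h, hg, hh, hne⟩ hx
    apply hne
    have r1 := hR g R hg x
    have r2 := hR h R hh x
    rw [hnear x hx _ _ r1 r2]
    obtain ⟨w1, _, hw1'⟩ := r1
    obtain ⟨w2, _, hw2'⟩ := r2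
    obtain ⟨v1, hv1⟩ := (h1 _).1 ⟨w1, hw1'⟩
    obtain ⟨v2, hv2⟩ := (h1 _).1 ⟨w2, hw2'⟩
    rw [← hv1, ← hv2]
    exact h3 v1 v2
  · refine (measure_mono_ae ?_).trans ((pre_le mpΨ {x | ¬ Near (f0 d) f' (3 * R) x}).trans
      ((hN (3 * R)).trans he))
    filter_upwards [hgood', hΦΨ] with y ⟨h1, h2, h3, h4, h5, h6⟩ hy
    rintro ⟨γ, η, hγ, hη, hne⟩
    rw [hy] at h6
    show ¬ Near (f0 d) f' (3 * R) (Ψ y)
    intro hx
    apply hne
    obtain ⟨w1, l1, e1⟩ := h6 γ R hγ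
    obtain ⟨w2, l2, e2⟩ := h6 η R hη
    have hk := (hNEAR (Ltr d) _ (f0 d) f' f' (3 * R) (Ψ y)).1 hx R (by omega)
    rw [← e1, ← e2, h2, h2, h3]
    exact hnear _ hx _ _ ((hk _).2 ⟨w1, l1, rfl⟩) ((hk _).2 ⟨w2, l2, rfl⟩)
  · intro h3d
    obtain ⟨C, c, α, hc, hα, t1, t2⟩ := hT h3d
    refine ⟨C, c, α, hc, hα, fun n => ⟨fun s hs => ?_, fun t ht => ?_⟩⟩
    · rw [← range_fdir] at hs
      obtain ⟨b, rfl⟩ := hs
      refine (measure_mono_ae ?_).trans (t2 n (b.1, !b.2))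
      filter_upwards [hgood] with x ⟨h1, h2, h3, h4, h5, h6⟩
      intro hx
      show ¬ _
      rintro ⟨w, hw1, hw2⟩
      have hsh : shift (fdir b) x = f0 d (b.1, !b.2) x := by
        unfold f0
        rw [fdir_inv, inv_inv]
      have hx' : (n : ℕ∞) < orbDist (gamGens (2 * d)) (Φ x) (Φ (shift (fdir b) x)) := hx
      rw [hsh, ← hw2] at hx'
      have h7 := h3 [] w
      rw [run_nil] at h7
      rw [h7] at hx'
      have h8 := hx'.trans_le (dst_le f' w x)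
      have h9 : n < w.length := by exact_mod_cast h8
      omega
    · obtain ⟨j, rfl⟩ := ht
      refine (measure_mono_ae ?_).trans ((pre_le mpΨ _).trans (t1 n (e'.symm j)))
      filter_upwards [hgood', hΦΨ] with y ⟨h1, h2, h3, h4, h5, h6⟩ hy
      intro hx
      show ¬ _
      rintro ⟨w, hw1, hw2⟩
      have hsh : shift (gdir j) y = Φ (f' (e'.symm j) (Ψ y)) := by
        rw [heq, hy, Equiv.apply_symm_apply]
      have hx' : (n : ℕ∞) < orbDist (freeGens d) (Ψ y) (Ψ (shift (gdir j) y)) := hx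
      have h7 := h2 [e'.symm j]
      rw [run_cons, run_nil] at h7
      rw [hsh, h7, ← hw2, hD] at hx'
      have h8 := hx'.trans_le (dst_le (f0 d) w (Ψ y))
      have h9 : n < w.length := by exact_mod_cast h8
      omega

end Pool.Agent.Helper35.OB
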