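import Pool.Agent.Helper6.OB.Goals

/-!
# Project OB, packet SEQ: sequences of blocks
-/

set_option autoImplicit false

namespace Pool.Agent.Helper35.OB

open Pool.Agent.Helper6.CS
open Pool.Agent.Helper6.OB
open Pool.Agent.Helper41.CS (Vx OOW limW len_app get_app_lt get_app_ge app_assoc len_nil nil_app
  app_nil len_sg get_sg over_nil over_app over_sg len_sub get_sub sub_app over_sub sub_eq_self
  sub_sg_self bdd_words code_fun len_isub get_isub isub_app isub_over isub_left isub_var
  pos_add_one exists_snoc)

set_option synthInstance.maxSize 1000000000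

theorem t_SEQ : G_SEQ := by
  intro M _ a b H G F S U hab hB
  have := hB.iF
  have := hB.iS
  have := hB.iU
  -- (1)
  have h1 : ∀ j, Over (a + j) (F j) := by
    refine ind ?_ ?_ ?_
    · infer_instance
    · rw [hB.f0]
      exact over_nil _
    · intro j hj
      rw [hB.fs]
      refine over_app (over_app (Pool.Agent.Helper41.CS.Over.mono hj ?_)
        (Pool.Agent.Helper41.CS.Over.mono (hB.bk j).1 ?_)) ?_
      · rw [← add_assoc]
        exact le_add_of_nonneg_right zero_le_one
      · exact le_add_of_nonneg_right (World.zero_le' _)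
      · intro p hp
        rw [len_sub] at hp
        rw [get_sub hp]
        split_ifs with h4
        · rw [← add_assoc]
          exact pos_add_one _
        · refine lt_of_lt_of_le ((hB.bk j).2.1 p hp) ?_
          rw [add_comm j 1, ← add_assoc]
          exact le_add_of_nonneg_right (World.zero_le' _)
  -- (2)
  have h2 : ∀ v c, wv a F (v ++ Wd.sg c) = wv a F v ++ bl a c (S v.len, U v.len) := by
    intro v c
    unfold wv bl
    rw [len_app, len_sg, hB.fs, isub_app, isub_app, isub_left (h1 v.len) rfl,
      isub_over (hB.bk v.len).1, isub_var (hB.bk v.len).2.1 rfl, app_assoc]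
  -- (3)
  have h3 : ∀ v, Over b v → Over b (wv a F v) := by
    intro v hv p hp
    unfold wv at hp ⊢
    rw [len_isub] at hp
    rw [get_isub hp]
    split_ifs with h4
    · exact lt_of_lt_of_le h4 hab
    · obtain ⟨c, hc⟩ := World.exists_add _ _ (not_lt.1 h4)
      have h5 : c < v.len := by
        have := h1 v.len p hp
        rw [hc] at this
        exact lt_of_add_lt_add_left this
      rw [hc, add_tsub_cancel_left]
      exact hv c h5
  -- (4)
  have h4 : ∀ v, (wv a F v).len = (F v.len).len := by
    intro v
    unfold wv
    rw [len_isub]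
  refine ⟨h1, h2, h3, h4, ?_⟩
  -- (5)
  intro hSt v z hv hz
  have := hSt.ifn
  have h5 : ∀ N : M, ∀ z : Wd M, z.len = N → Over a z → H (wv a F (v ++ z)) = H (wv a F v) := by
    refine ind ?_ ?_ ?_
    · infer_instance
    · intro z hz0 _
      have : z = Wd.nil M := Pool.Agent.Helper41.CS.eq_nil hz0.le
      rw [this, app_nil]
    · intro N ih z hzN hz
      obtain ⟨z₀, h6, h7⟩ := exists_snoc hzN
      have h8 : z.get N < a := hz N (by rw [hzN]; exact pos_add_one N)
      have h9 : Over a z₀ := by
        intro p hp
        have := hz p (by rw [hzN, ← h7]; exact hp.trans (pos_add_one _))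
        rwa [h6, get_app_lt hp] at this
      have h10 : v ++ z = (v ++ z₀) ++ Wd.sg (z.get N) := by
        conv_lhs => rw [h6]
        rw [app_assoc]
      rw [h10, h2]
      have h11 : Over b (v ++ z₀) := over_app hv (Pool.Agent.Helper41.CS.Over.mono h9 hab)
      rw [hSt.p2 _ _ (hB.bk (v ++ z₀).len) (hB.gd (v ++ z₀).len) _ (h3 _ h11) (h4 _).le _ h8]
      exact ih z₀ h7 h9
  exact h5 z.len z rfl hz

end Pool.Agent.Helper35.OB
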